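import Mathlib
import Pool.Agent.Lib_helper71.Cmp.Upper
import Pool.Agent.Lib_helper71.Cmp.Lower

set_option autoImplicit false

open CmpZ

/-- For every `n ≥ 3` the small inductive compactness degree of the `n`-cube with one open face
removed is exactly `2`. -/
theorem Pool.Agent.Results.MP_3364cd_gt.CmpEqTwo.result (n : ℕ) (hn : 3 ≤ n) :
    CmpEq (Z n) 2 :=
  ⟨cmpLE_Z (le_trans (by norm_num) hn), not_cmpLE_Z hn⟩
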